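import Mathlib

/-!
Systems of quadratic forms: `u_r(K) ≤ 2 (r + 1) u'_r(K)` for every field `K` and every `r`.
-/

namespace Pool.Agent.Results.MP_9fd87c_al.SystemUInvariants

open Module

universe u

section Defs

variable {K : Type u} [Field K] {V : Type*} [AddCommGroup V] [Module K V] {r : ℕ}

/-- A quadratic map `q : V → K^r`, given as an `r`-tuple of quadratic forms, is anisotropic if
`q v = 0` forces `v = 0`. -/
def Anisotropic (q : Fin r → QuadraticForm K V) : Prop :=
  ∀ v : V, (∀ i, q i v = 0) → v = 0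

/-- A quadratic map `q : V → K^r` is metabolic if it vanishes identically on some subspace `U`
with `dim U ≥ (dim V) / 2`. -/
def Metabolic (q : Fin r → QuadraticForm K V) : Prop :=
  ∃ U : Submodule K V, (∀ v ∈ U, ∀ i, q i v = 0) ∧ finrank K V ≤ 2 * finrank K U

/-- The orthogonal sum `m × q` of `m` copies of the quadratic map `q : V → K^r`; it sends
`(v_1, …, v_m)` to `q v_1 + ⋯ + q v_m`. -/
def copies (m : ℕ) (q : Fin r → QuadraticForm K V) :
    Fin r → QuadraticForm K (Fin m → V) :=
  fun i => QuadraticMap.pi (fun _ : Fin m => q i)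

end Defs

/-- The invariant `u_r(K)`: the supremum (in `ℕ ∪ {∞}`) of all `n` such that there is an
anisotropic quadratic map `q : K^n → K^r` with `m × q` metabolic for some `m ≥ 1`. -/
noncomputable def uInv (K : Type u) [Field K] (r : ℕ) : ℕ∞ :=
  sSup {x : ℕ∞ | ∃ n : ℕ, x = n ∧ ∃ q : Fin r → QuadraticForm K (Fin n → K),
    Anisotropic q ∧ ∃ m : ℕ, 1 ≤ m ∧ Metabolic (copies m q)}

/-- The invariant `u'_r(K)`: the supremum (in `ℕ ∪ {∞}`) of all `n` such that there is an
anisotropic quadratic map `q : K^n → K^r` with `2 × q` metabolic. -/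
noncomputable def uInv' (K : Type u) [Field K] (r : ℕ) : ℕ∞ :=
  sSup {x : ℕ∞ | ∃ n : ℕ, x = n ∧ ∃ q : Fin r → QuadraticForm K (Fin n → K),
    Anisotropic q ∧ Metabolic (copies 2 q)}

section Proof

variable {K : Type u} [Field K] {r : ℕ}

/-- The hypothesis `u'_r(K) ≤ c` in usable form. -/
theorem le_of_two {c : ℕ} (hc : uInv' K r ≤ c) {n : ℕ}
    (q : Fin r → QuadraticForm K (Fin n → K)) (hq : Anisotropic q)
    (hm : Metabolic (copies 2 q)) : n ≤ c := by
  have : (n : ℕ∞) ≤ uInv' K r := le_sSup ⟨n, rfl, q, hq, hm⟩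
  exact_mod_cast this.trans hc

/-- Doubling step on `W × W`. -/
theorem doubling {c : ℕ} (hc : uInv' K r ≤ c) {W : Type*} [AddCommGroup W] [Module K W]
    [FiniteDimensional K W] (Q : Fin r → QuadraticForm K W) (hQ : Anisotropic Q) :
    ∃ W' : Submodule K (W × W),
      (∀ z ∈ W', (∀ i, Q i z.1 + Q i z.2 = 0) → z = 0) ∧
      2 * finrank K W ≤ finrank K W' + (r + 1) * c := by
  classical
  -- the set of admissible subspaces
  let S : Set (Submodule K (W × W)) :=
    {U | (∀ z ∈ U, ∀ i, Q i z.1 + Q i z.2 = 0) ∧ (∀ z ∈ U, ((-z.2, z.1) : W × W) ∈ U)}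
  have hbot : (⊥ : Submodule K (W × W)) ∈ S := by
    refine ⟨?_, ?_⟩
    · intro z hz i
      rw [Submodule.mem_bot] at hz
      subst hz
      simp
    · intro z hz
      rw [Submodule.mem_bot] at hz
      subst hz
      simp
  obtain ⟨U, hUS, hUmax⟩ := WellFounded.has_min
    (wellFounded_gt : WellFounded ((· > ·) : Submodule K (W × W) → Submodule K (W × W) → Prop))
    S ⟨⊥, hbot⟩
  obtain ⟨hUiso, hUJ⟩ := hUS
  -- Step 1 : finrank U ≤ c
  have hUc : finrank K U ≤ c := by
    let f : U →ₗ[K] W := (LinearMap.fst K W W).domRestrict U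
    have hfinj : Function.Injective f := by
      rw [← LinearMap.ker_eq_bot, LinearMap.ker_eq_bot']
      intro z hz
      have h1 : (z : W × W).1 = 0 := hz
      have h2 : (z : W × W).2 = 0 := by
        apply hQ
        intro i
        have := hUiso z z.2 i
        rw [h1] at this
        simpa using this
      apply Subtype.ext
      exact Prod.ext h1 h2
    let P : Submodule K W := LinearMap.range f
    have hP : finrank K P = finrank K U := LinearMap.finrank_range_of_inj hfinj
    have hUP : ∀ z ∈ U, z.1 ∈ P ∧ z.2 ∈ P := by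
      intro z hz
      refine ⟨⟨⟨z, hz⟩, rfl⟩, ?_⟩
      have h3 := hUJ z hz
      have h4 : -z.2 ∈ P := ⟨⟨_, h3⟩, rfl⟩
      simpa using P.neg_mem h4
    let n := finrank K P
    let e : (Fin n → K) ≃ₗ[K] P := (finBasis K P).equivFun.symm
    let g : (Fin n → K) →ₗ[K] W := P.subtype ∘ₗ e.toLinearMap
    have hg : Function.Injective g := P.injective_subtype.comp e.injective
    let q : Fin r → QuadraticForm K (Fin n → K) := fun i => (Q i).comp g
    have hqA : Anisotropic q := by
      intro v hv
      have : g v = 0 := hQ _ (fun i => hv i)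
      exact hg (by rw [this, map_zero])
    let Ψ : (Fin 2 → (Fin n → K)) →ₗ[K] W × W :=
      LinearMap.prod (g ∘ₗ LinearMap.proj 0) (g ∘ₗ LinearMap.proj 1)
    have hqM : Metabolic (copies 2 q) := by
      refine ⟨U.comap Ψ, ?_, ?_⟩
      · intro v hv i
        have h5 := hUiso _ hv i
        simpa [copies, q, Ψ, QuadraticMap.pi_apply, Fin.sum_univ_two] using h5
      · have h6 : (U.comap Ψ).map Ψ = U := by
          rw [Submodule.map_comap_eq]
          apply inf_eq_right.mpr
          intro z hz
          obtain ⟨h7, h8⟩ := hUP z hz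
          refine ⟨![e.symm ⟨z.1, h7⟩, e.symm ⟨z.2, h8⟩], ?_⟩
          apply Prod.ext <;> simp [Ψ, g]
        have h9 : finrank K U ≤ finrank K (U.comap Ψ) := by
          conv_lhs => rw [← h6]
          exact Submodule.finrank_map_le _ _
        have h10 : finrank K (Fin 2 → (Fin n → K)) = 2 * n := by
          rw [Module.finrank_pi_fintype]
          simp
        rw [h10]
        have : n = finrank K U := hP
        omega
    have := le_of_two hc q hqA hqM
    have h11 : n = finrank K U := hP
    omega
  -- Step 2 : the orthogonal complement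
  let B : Fin r → QuadraticForm K (W × W) := fun i => (Q i).prod (Q i)
  have hB : ∀ i (z : W × W), B i z = Q i z.1 + Q i z.2 := fun i z => by
    simp [B, QuadraticMap.prod_apply]
  let J : (W × W) →ₗ[K] (W × W) :=
    LinearMap.prod (-LinearMap.snd K W W) (LinearMap.fst K W W)
  have hJ : ∀ z : W × W, J z = (-z.2, z.1) := fun z => rfl
  have hBJ : ∀ i z, B i (J z) = B i z := by
    intro i z
    rw [hB, hB, hJ]
    simp [add_comm]
  have hJJ : ∀ z, J (J z) = -z := by
    intro z
    rw [hJ, hJ]
    rfl
  have hpolJ : ∀ i z w, QuadraticMap.polar (B i) (J z) (J w) = QuadraticMap.polar (B i) z w := by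
    intro i z w
    unfold QuadraticMap.polar
    rw [← map_add, hBJ, hBJ, hBJ]
  have hpolself : ∀ i z, QuadraticMap.polar (B i) z (J z) = 0 := by
    intro i z
    unfold QuadraticMap.polar
    rw [hB, hB, hB, hJ]
    have e1 : Q i (z.1 + -z.2) = Q i z.1 + Q i z.2 - QuadraticMap.polar (Q i) z.1 z.2 := by
      have := QuadraticMap.map_add (Q i) z.1 (-z.2)
      rw [this, QuadraticMap.map_neg, QuadraticMap.polar_neg_right]
      ring
    have e2 : Q i (z.2 + z.1) = Q i z.1 + Q i z.2 + QuadraticMap.polar (Q i) z.1 z.2 := by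
      rw [add_comm z.2 z.1]
      exact QuadraticMap.map_add (Q i) z.1 z.2
    simp only [Prod.fst_add, Prod.snd_add, QuadraticMap.map_neg]
    rw [e1, e2]
    ring
  let Φ : (W × W) →ₗ[K] (Fin r → Module.Dual K U) :=
    LinearMap.pi (fun i => (LinearMap.lcomp K K U.subtype) ∘ₗ (B i).polarBilin)
  have hΦ : ∀ z, Φ z = 0 → ∀ i, ∀ u ∈ U, QuadraticMap.polar (B i) z u = 0 := by
    intro z hz i u hu
    have h1 := congrFun hz i
    have h2 := LinearMap.congr_fun h1 ⟨u, hu⟩
    simpa [Φ] using h2
  let N : Submodule K (W × W) := LinearMap.ker Φ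
  have hNdim : 2 * finrank K W ≤ finrank K N + r * finrank K U := by
    have h1 := LinearMap.finrank_range_add_finrank_ker Φ
    have h2 : finrank K (LinearMap.range Φ) ≤ finrank K (Fin r → Module.Dual K U) :=
      Submodule.finrank_le _
    have h3 : finrank K (Fin r → Module.Dual K U) = r * finrank K U := by
      rw [Module.finrank_pi_fintype]
      simp
    have h4 : finrank K (W × W) = 2 * finrank K W := by
      rw [Module.finrank_prod]
      ring
    have h5 : finrank K N = finrank K (LinearMap.ker Φ) := rfl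
    omega
  -- Step 3 : isotropic vectors in N lie in U
  have hNU : ∀ z ∈ N, (∀ i, Q i z.1 + Q i z.2 = 0) → z ∈ U := by
    intro z hz hiso
    by_contra hzU
    have hz' := hΦ z hz
    have hzJ : ∀ i, ∀ u ∈ U, QuadraticMap.polar (B i) (J z) u = 0 := by
      intro i u hu
      have h1 : J (-(J u)) = u := by
        rw [map_neg, hJJ, neg_neg]
      rw [← h1, hpolJ]
      exact hz' i _ (U.neg_mem (hUJ u hu))
    let U' : Submodule K (W × W) := U ⊔ (K ∙ z) ⊔ (K ∙ (J z))
    have hU'S : U' ∈ S := by
      have hmem : ∀ x ∈ U', ∃ u ∈ U, ∃ a b : K, x = u + a • z + b • J z := by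
        intro x hx
        obtain ⟨y, hy, w, hw, rfl⟩ := Submodule.mem_sup.mp hx
        obtain ⟨u, hu, v, hv, rfl⟩ := Submodule.mem_sup.mp hy
        obtain ⟨a, rfl⟩ := Submodule.mem_span_singleton.mp hv
        obtain ⟨b, rfl⟩ := Submodule.mem_span_singleton.mp hw
        exact ⟨u, hu, a, b, rfl⟩
      refine ⟨?_, ?_⟩
      · intro x hx i
        obtain ⟨u, hu, a, b, rfl⟩ := hmem x hx
        rw [← hB]
        have g1 := QuadraticMap.map_add (B i) (u + a • z) (b • J z)
        have g2 := QuadraticMap.map_add (B i) u (a • z)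
        rw [g1, g2, QuadraticMap.map_smul, QuadraticMap.map_smul, QuadraticMap.polar_add_left,
          QuadraticMap.polar_smul_right, QuadraticMap.polar_smul_right,
          QuadraticMap.polar_smul_right, QuadraticMap.polar_smul_left, hBJ, hpolself,
          QuadraticMap.polar_comm _ u z, QuadraticMap.polar_comm _ u (J z), hz' i u hu,
          hzJ i u hu, hB, hB, hUiso u hu i, hiso i]
        simp
      · intro x hx
        obtain ⟨u, hu, a, b, rfl⟩ := hmem x hx
        have h1 : ((-(u + a • z + b • J z).2, (u + a • z + b • J z).1) : W × W) =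
            J u + (-b) • z + a • J z := by
          rw [← hJ, map_add, map_add, map_smul, map_smul, hJJ]
          module
        rw [h1]
        refine U'.add_mem (U'.add_mem ?_ ?_) ?_
        · exact Submodule.mem_sup_left (Submodule.mem_sup_left (hUJ u hu))
        · exact Submodule.mem_sup_left (Submodule.mem_sup_right
            (Submodule.smul_mem _ _ (Submodule.mem_span_singleton_self z)))
        · exact Submodule.mem_sup_right
            (Submodule.smul_mem _ _ (Submodule.mem_span_singleton_self (J z)))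
    have hlt : U < U' := by
      refine lt_of_le_of_ne (le_sup_left.trans le_sup_left) ?_
      intro heq
      apply hzU
      rw [heq]
      exact Submodule.mem_sup_left (Submodule.mem_sup_right
        (Submodule.mem_span_singleton_self z))
    exact hUmax U' hU'S hlt
  -- Step 4 : complement
  obtain ⟨C, hC⟩ := Submodule.exists_isCompl U
  refine ⟨N ⊓ C, ?_, ?_⟩
  · intro z hz hiso
    have h1 : z ∈ U := hNU z hz.1 hiso
    have h2 : z ∈ U ⊓ C := ⟨h1, hz.2⟩
    rw [hC.inf_eq_bot] at h2
    simpa using h2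
  · have h1 := Submodule.finrank_sup_add_finrank_inf_eq N C
    have h2 : finrank K (N ⊔ C : Submodule K (W × W)) ≤ finrank K (W × W) :=
      Submodule.finrank_le _
    have h3 := Submodule.finrank_add_eq_of_isCompl hC
    have h4 : finrank K (W × W) = 2 * finrank K W := by
      rw [Module.finrank_prod]
      ring
    have h5 : r * finrank K U ≤ r * c := Nat.mul_le_mul_left _ hUc
    have h6 : (r + 1) * c = r * c + c := by ring
    omega

/-- `V^κ` has an anisotropic subspace of codimension at most `a`. -/
def Good {V : Type*} [AddCommGroup V] [Module K V] (q : Fin r → QuadraticForm K V)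
    (κ : Type) [Fintype κ] (a : ℕ) : Prop :=
  ∃ W : Submodule K (κ → V),
    (∀ w ∈ W, (∀ i, ∑ x, q i (w x) = 0) → w = 0) ∧
    Fintype.card κ * finrank K V ≤ finrank K W + a

theorem good_double {c : ℕ} (hc : uInv' K r ≤ c) {V : Type*} [AddCommGroup V] [Module K V]
    [FiniteDimensional K V] (q : Fin r → QuadraticForm K V) (κ : Type) [Fintype κ] (a : ℕ)
    (h : Good q κ a) : Good q (κ ⊕ κ) (2 * a + (r + 1) * c) := by
  classical
  obtain ⟨W, hW, hdim⟩ := h
  let Q : Fin r → QuadraticForm K W := fun i =>
    (QuadraticMap.pi (fun _ : κ => q i)).comp W.subtype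
  have hQv : ∀ i (w : W), Q i w = ∑ x, q i ((w : κ → V) x) := by
    intro i w
    simp [Q, QuadraticMap.pi_apply]
  have hQ : Anisotropic Q := by
    intro w hw
    apply Subtype.ext
    apply hW w w.2
    intro i
    rw [← hQv]
    exact hw i
  obtain ⟨W', hW', hdim'⟩ := doubling hc Q hQ
  let T : (W × W) →ₗ[K] (κ ⊕ κ → V) :=
    { toFun := fun z => Sum.elim (z.1 : κ → V) (z.2 : κ → V)
      map_add' := by
        intro z w
        funext x
        rcases x with x | x <;> simp
      map_smul' := by
        intro a z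
        funext x
        rcases x with x | x <;> simp }
  have hTl : ∀ z x, T z (Sum.inl x) = (z.1 : κ → V) x := fun _ _ => rfl
  have hTr : ∀ z x, T z (Sum.inr x) = (z.2 : κ → V) x := fun _ _ => rfl
  have hT : Function.Injective T := by
    intro z w hzw
    apply Prod.ext
    · apply Subtype.ext
      funext x
      have := congrFun hzw (Sum.inl x)
      simpa [hTl] using this
    · apply Subtype.ext
      funext x
      have := congrFun hzw (Sum.inr x)
      simpa [hTr] using this
  refine ⟨W'.map T, ?_, ?_⟩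
  · intro w hw hi
    obtain ⟨z, hz, rfl⟩ := hw
    have : z = 0 := by
      apply hW' z hz
      intro i
      have h1 := hi i
      rw [Fintype.sum_sum_type] at h1
      simp only [hTl, hTr] at h1
      rw [hQv, hQv]
      exact h1
    rw [this, map_zero]
  · have h1 : finrank K (W'.map T) = finrank K W' :=
      (LinearEquiv.finrank_eq (Submodule.equivMapOfInjective T hT W')).symm
    rw [h1, Fintype.card_sum]
    have : (Fintype.card κ + Fintype.card κ) * finrank K V =
      2 * (Fintype.card κ * finrank K V) := by ring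
    omega

theorem good_pow {c : ℕ} (hc : uInv' K r ≤ c) {V : Type*} [AddCommGroup V] [Module K V]
    [FiniteDimensional K V] (q : Fin r → QuadraticForm K V) (hq : Anisotropic q) (n : ℕ) :
    ∃ (κ : Type) (_ : Fintype κ), Fintype.card κ = 2 ^ n ∧
      ∃ a, a + (r + 1) * c = 2 ^ n * ((r + 1) * c) ∧ Good q κ a := by
  induction n with
  | zero =>
    refine ⟨Unit, inferInstance, by simp, 0, by simp, ⊤, ?_, ?_⟩
    · intro w _ hw
      funext x
      apply hq
      intro i
      have := hw i
      simpa using this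
    · rw [finrank_top, Module.finrank_pi_fintype]
      simp
  | succ n ih =>
    obtain ⟨κ, hκ, hcard, a, ha, hgood⟩ := ih
    refine ⟨κ ⊕ κ, inferInstance, ?_, 2 * a + (r + 1) * c, ?_, good_double hc q κ a hgood⟩
    · rw [Fintype.card_sum, hcard]
      ring
    · rw [pow_succ, mul_comm (2 ^ n) 2, mul_assoc, ← ha]
      ring

theorem bound {c : ℕ} (hc : uInv' K r ≤ c) {V : Type*} [AddCommGroup V] [Module K V]
    [FiniteDimensional K V] (q : Fin r → QuadraticForm K V) (hq : Anisotropic q)
    (m : ℕ) (hm : 1 ≤ m) (hmet : Metabolic (copies m q)) :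
    finrank K V ≤ 2 * (r + 1) * c := by
  classical
  obtain ⟨L, hL, hLdim⟩ := hmet
  have hLdim' : m * finrank K V ≤ 2 * finrank K L := by
    have : finrank K (Fin m → V) = m * finrank K V := by
      rw [Module.finrank_pi_fintype]
      simp
    rwa [this] at hLdim
  by_contra hcon
  push Not at hcon
  set D := finrank K V with hD
  set E := (r + 1) * c with hE
  have hcon' : 2 * E + 1 ≤ D := by
    have : 2 * (r + 1) * c = 2 * E := by rw [hE]; ring
    omega
  -- choose n with 2^n > m * D
  obtain ⟨n, hn⟩ : ∃ n : ℕ, m * D < 2 ^ n := ⟨m * D, Nat.lt_two_pow_self⟩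
  obtain ⟨κ, hκ, hcard, a, ha, W, hW, hWdim⟩ := good_pow hc q hq n
  let k := 2 ^ n / m
  have hkm : k * m ≤ 2 ^ n := Nat.div_mul_le_self _ _
  have hkm' : 2 ^ n < (k + 1) * m := by
    have h1 := Nat.div_add_mod (2 ^ n) m
    have h2 := Nat.mod_lt (2 ^ n) (by omega : m > 0)
    have h3 : (k + 1) * m = m * (2 ^ n / m) + m := by
      simp only [k]
      ring
    omega
  -- embedding
  have hcardle : Fintype.card (Fin k × Fin m) ≤ Fintype.card κ := by
    rw [Fintype.card_prod, Fintype.card_fin, Fintype.card_fin, hcard]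
    exact hkm
  obtain ⟨f⟩ := Function.Embedding.nonempty_of_card_le hcardle
  let T : (Fin k → L) →ₗ[K] (κ → V) :=
    { toFun := fun ℓ x => if h : ∃ p, f p = x then (ℓ h.choose.1 : Fin m → V) h.choose.2 else 0
      map_add' := by
        intro ℓ ℓ'
        funext x
        by_cases h : ∃ p, f p = x
        · simp only [h, dif_pos, Pi.add_apply, Submodule.coe_add]
        · simp only [h, dif_neg, Pi.add_apply, not_false_eq_true, add_zero]
      map_smul' := by
        intro b ℓ
        funext x
        by_cases h : ∃ p, f p = x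
        · simp only [h, dif_pos, Pi.smul_apply, Submodule.coe_smul, RingHom.id_apply]
        · simp only [h, dif_neg, Pi.smul_apply, not_false_eq_true, smul_zero,
            RingHom.id_apply] }
  have hT1 : ∀ ℓ p, T ℓ (f p) = (ℓ p.1 : Fin m → V) p.2 := by
    intro ℓ p
    have h : ∃ p', f p' = f p := ⟨p, rfl⟩
    have h2 : h.choose = p := f.injective h.choose_spec
    change (if h : ∃ p', f p' = f p then (ℓ h.choose.1 : Fin m → V) h.choose.2 else 0) = _
    rw [dif_pos h, h2]
  have hT2 : ∀ ℓ x, (¬ ∃ p, f p = x) → T ℓ x = 0 := by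
    intro ℓ x h
    change (if h : ∃ p', f p' = x then (ℓ h.choose.1 : Fin m → V) h.choose.2 else 0) = _
    rw [dif_neg h]
  have hTinj : Function.Injective T := by
    rw [← LinearMap.ker_eq_bot, LinearMap.ker_eq_bot']
    intro ℓ hℓ
    funext a
    apply Subtype.ext
    funext b
    have := congrFun hℓ (f (a, b))
    rw [hT1] at this
    simpa using this
  have hTiso : ∀ ℓ i, ∑ x, q i (T ℓ x) = 0 := by
    intro ℓ i
    have h1 : ∑ x, q i (T ℓ x) = ∑ x ∈ Finset.univ.map f, q i (T ℓ x) := by
      symm
      apply Finset.sum_subset (Finset.subset_univ _)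
      intro x _ hx
      rw [hT2 ℓ x, map_zero]
      rintro ⟨p, hp⟩
      apply hx
      rw [Finset.mem_map]
      exact ⟨p, Finset.mem_univ _, hp⟩
    rw [h1, Finset.sum_map, Fintype.sum_prod_type]
    apply Finset.sum_eq_zero
    intro a _
    have h2 := hL (ℓ a) (ℓ a).2 i
    simp only [copies, QuadraticMap.pi_apply] at h2
    simp only [hT1]
    exact h2
  have hdisj : W ⊓ LinearMap.range T = ⊥ := by
    rw [eq_bot_iff]
    rintro w ⟨hw1, ⟨ℓ, rfl⟩⟩
    rw [Submodule.mem_bot]
    exact hW _ hw1 (hTiso ℓ)
  have h1 := Submodule.finrank_sup_add_finrank_inf_eq W (LinearMap.range T)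
  rw [hdisj, finrank_bot, LinearMap.finrank_range_of_inj hTinj] at h1
  have h2 : finrank K (W ⊔ LinearMap.range T : Submodule K (κ → V)) ≤ finrank K (κ → V) :=
    Submodule.finrank_le _
  have h3 : finrank K (κ → V) = 2 ^ n * D := by
    rw [Module.finrank_pi_fintype]
    simp [hcard, hD]
  have h4 : finrank K (Fin k → L) = k * finrank K L := by
    rw [Module.finrank_pi_fintype]
    simp
  rw [hcard, ← hD] at hWdim
  rw [← hE] at ha
  rw [h4] at h1
  rw [h3] at h2
  -- k * finrank L ≤ a
  have h5 : k * finrank K L ≤ a := by omega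
  have h6 : k * (m * D) ≤ 2 * a := by
    calc k * (m * D) ≤ k * (2 * finrank K L) := Nat.mul_le_mul_left _ hLdim'
      _ = 2 * (k * finrank K L) := by ring
      _ ≤ 2 * a := Nat.mul_le_mul_left _ h5
  have h7 : 2 * a ≤ 2 ^ n * (2 * E) := by
    have : 2 * (2 ^ n * E) = 2 ^ n * (2 * E) := by ring
    omega
  have h8 : 2 ^ n * D ≤ (k + 1) * m * D := Nat.mul_le_mul_right _ hkm'.le
  have h9 : (k + 1) * m * D = k * (m * D) + m * D := by ring
  have h10 : 2 ^ n * (2 * E + 1) ≤ 2 ^ n * D := Nat.mul_le_mul_left _ hcon'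
  have h11 : 2 ^ n * (2 * E + 1) = 2 ^ n * (2 * E) + 2 ^ n := by ring
  omega

end Proof

/-- For every field `K` (in particular for every real field) and every `r`, if `u'_r(K)` is
finite then `u_r(K)` is finite, and more precisely `u_r(K) ≤ 2 (r + 1) u'_r(K)`. -/
theorem result (K : Type u) [Field K] (r : ℕ) :
    (uInv' K r < ⊤ → uInv K r < ⊤) ∧ uInv K r ≤ 2 * (r + 1) * uInv' K r := by
  have key : ∀ c : ℕ, uInv' K r = c → uInv K r ≤ ((2 * (r + 1) * c : ℕ) : ℕ∞) := by
    intro c hc
    apply sSup_le
    rintro x ⟨n, rfl, q, hq, m, hm, hmet⟩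
    have := bound hc.le q hq m hm hmet
    rw [Module.finrank_fin_fun] at this
    exact_mod_cast this
  have hne : ∀ h : uInv' K r ≠ ⊤, ∃ c : ℕ, uInv' K r = c := by
    intro h
    obtain ⟨c, hc⟩ := ENat.ne_top_iff_exists.mp h
    exact ⟨c, hc.symm⟩
  constructor
  · intro h
    obtain ⟨c, hc⟩ := hne h.ne
    exact lt_of_le_of_lt (key c hc) (ENat.natCast_lt_top _)
  · by_cases h : uInv' K r = ⊤
    · rw [h]
      have : (2 * ((r : ℕ∞) + 1)) ≠ 0 := by
        simp
      rw [ENat.mul_top this]
      exact le_top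
    · obtain ⟨c, hc⟩ := hne h
      have := key c hc
      rw [hc]
      exact_mod_cast this

end Pool.Agent.Results.MP_9fd87c_al.SystemUInvariants
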